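import Pool.Agent.Lib.MP_f7bfdf_al.HTUnc

set_option autoImplicit false

namespace Pool.Agent.Results.MP_f7bfdf_al.HighlyTransitive

open Pool.Agent.Lib.MP_f7bfdf_al

universe u

/-- A locally free group (of any size) has a faithful highly transitive action on an infinite set
if and only if it is non-abelian. -/
theorem result (G : Type u) [Group G] (hG : ∀ H : Subgroup G, H.FG → IsFreeGroup H) :
    (∃ (Ω : Type u) (φ : G →* Equiv.Perm Ω), Infinite Ω ∧ Function.Injective φ ∧
      ∀ (k : ℕ) (x y : Fin k → Ω), Function.Injective x → Function.Injective y →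
        ∃ g : G, ∀ i, φ g (x i) = y i) ↔ ∃ a b : G, a * b ≠ b * a := by
  classical
  constructor
  · rintro ⟨Ω, φ, hΩ, -, hφ⟩
    by_contra hc
    push Not at hc
    let e := Infinite.natEmbedding Ω
    have he : ∀ i j : ℕ, i ≠ j → e i ≠ e j := fun i j h => e.injective.ne h
    have hinj : ∀ i j : ℕ, i ≠ j → Function.Injective ![e i, e j] := by
      intro i j h a b hab
      fin_cases a <;> fin_cases b <;> simp_all [(he i j h).symm, eq_comm]
    obtain ⟨g, hg⟩ := hφ 2 ![e 0, e 1] ![e 0, e 2] (hinj 0 1 (by omega)) (hinj 0 2 (by omega))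
    obtain ⟨h, hh⟩ := hφ 2 ![e 0, e 1] ![e 1, e 0] (hinj 0 1 (by omega)) (hinj 1 0 (by omega))
    have h1 : φ g (e 0) = e 0 := hg 0
    have h2 : φ g (e 1) = e 2 := hg 1
    have h3 : φ h (e 0) = e 1 := hh 0
    have h4 := DFunLike.congr_fun (congrArg φ (hc g h)) (e 0)
    rw [map_mul, map_mul, Equiv.Perm.mul_apply, Equiv.Perm.mul_apply, h3, h1, h2, h3] at h4
    exact he 2 1 (by omega) h4
  · rintro ⟨a, b, hab⟩
    have hL : LocFree G := hG
    obtain ⟨M, A, hA, hD⟩ := hL.exists_done hab
    have hact : ∀ g x : G, MulAction.toPermHom G (G ⧸ M) g (x : G ⧸ M) = ((g * x : G) : G ⧸ M) :=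
      fun _ _ => rfl
    have hinj : Function.Injective (MulAction.toPermHom G (G ⧸ M)) := by
      rw [injective_iff_map_eq_one]
      intro g hg
      rcases (hD (g, ⟨0, Fin.elim0⟩)).1 with h | ⟨x, hx⟩
      · exact h
      · exfalso
        apply hA _ hx
        have h1 := hact g x
        rw [hg, Equiv.Perm.one_apply, QuotientGroup.eq] at h1
        simpa [mul_assoc] using h1
    refine ⟨G ⧸ M, MulAction.toPermHom G (G ⧸ M), ?_, hinj, ?_⟩
    · have h1 := hL.infinite_closure hab
      have h2 : Infinite G := Infinite.of_injective _ (Subgroup.closure {a, b}).subtype_injective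
      by_contra hf
      rw [not_infinite_iff_finite] at hf
      exact not_finite_iff_infinite.mpr h2 (Finite.of_injective _ hinj)
    · intro k x y hx hy
      obtain ⟨s, hs⟩ := (hD (1, ⟨k, fun i => ((x i).out, (y i).out)⟩)).2
        (fun i j h => hx (by
          rw [← (x i).out_eq, ← (x j).out_eq]
          exact QuotientGroup.eq.mpr h))
        (fun i j h => hy (by
          rw [← (y i).out_eq, ← (y j).out_eq]
          exact QuotientGroup.eq.mpr h))
      refine ⟨s, fun i => ?_⟩
      rw [← (x i).out_eq, ← (y i).out_eq]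
      refine (hact s _).trans (QuotientGroup.eq.mpr ?_).symm
      simpa [mul_assoc] using hs i

end Pool.Agent.Results.MP_f7bfdf_al.HighlyTransitive
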