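import Pool.Agent.Lib.MP_f7bfdf_al.Countable

set_option autoImplicit false

namespace Pool.Agent.Results.MP_f7bfdf_al.MaximalAvoiding

universe u

/-- In a non-abelian locally free group (of any size) every element `g ≠ 1` lies outside some
maximal subgroup. -/
theorem result (G : Type u) [Group G]
    (hG : ∀ s : Finset G, ∃ X : Type u, Nonempty (Subgroup.closure (s : Set G) ≃* FreeGroup X))
    (hab : ∃ a b : G, a * b ≠ b * a) (g : G) (hg : g ≠ 1) :
    ∃ M : Subgroup G, M ≠ ⊤ ∧ (∀ H : Subgroup G, M < H → H = ⊤) ∧ g ∉ M := by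
  obtain ⟨a, b, hab⟩ := hab
  have hL : Pool.Agent.Lib.MP_f7bfdf_al.LocFree G := by
    rintro H ⟨s, rfl⟩
    obtain ⟨X, ⟨e⟩⟩ := hG s
    exact IsFreeGroup.ofMulEquiv e.symm
  have h1 := hL.frattini_eq_bot hab
  by_contra h2
  apply hg
  rw [← Subgroup.mem_bot, ← h1, frattini, Order.radical]
  simp only [Subgroup.mem_iInf, Set.mem_setOf_eq]
  intro M hM
  by_contra h3
  exact h2 ⟨M, hM.1, hM.2, h3⟩

end Pool.Agent.Results.MP_f7bfdf_al.MaximalAvoiding
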